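import Pool.Agent.Lib.MP_be8344_nt.Final

/-!
# MP_be8344_nt: a pointwise upper bound for the odd `p`-ranks of imaginary quadratic class groups

There is an absolute constant `C` such that for every imaginary quadratic field `K` of discriminant `D`
and every odd prime `p`

* `p ^ r_p(D) (k + 1) ≤ C p ^ 2 (log (k + 2)) ^ 2 √|D| / log |D|`, where `k` is the number of primes `q`
  with `4 q ^ (2 p) < |D|` that are not inert in `K`, and hence
* `r_p(D) ≤ 2 + (log √|D| - log log |D| + C) / log p`.
-/

set_option autoImplicit false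

open NumberField Ideal Module
open scoped nonZeroDivisors

namespace Pool.Agent.Results.MP_be8344_nt.UniformUpperBound

/-- The group `Cl / Cl ^ p` for the ideal class group `Cl` of `K`. -/
abbrev ClMod (K : Type) [Field K] [NumberField K] (p : ℕ) : Type :=
  ClassGroup (𝓞 K) ⧸ (powMonoidHom p : ClassGroup (𝓞 K) →* ClassGroup (𝓞 K)).range

theorem nsmul_eq_zero (K : Type) [Field K] [NumberField K] (p : ℕ) (x : Additive (ClMod K p)) :
    p • x = 0 := by
  obtain ⟨g, hg⟩ := QuotientGroup.mk_surjective (Additive.toMul x)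
  apply Additive.toMul.injective
  rw [toMul_nsmul, ← hg, ← QuotientGroup.mk_pow]
  exact (QuotientGroup.eq_one_iff _).2 ⟨g, rfl⟩

/-- The `p`-rank `r_p` of the class group of `K`: the dimension of `Cl / Cl ^ p` over `ZMod p`. -/
noncomputable def pRank (K : Type) [Field K] [NumberField K] (p : ℕ) : ℕ :=
  letI : Module (ZMod p) (Additive (ClMod K p)) := AddCommGroup.zmodModule (nsmul_eq_zero K p)
  finrank (ZMod p) (Additive (ClMod K p))

/-- The number of primes `q` with `4 q ^ (2 p) < |D|` that are not inert in `K`, that is, for which there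
is an ideal of norm `q`. -/
noncomputable def numSmall (K : Type) [Field K] [NumberField K] (p : ℕ) : ℕ :=
  {q : ℕ | q.Prime ∧ (∃ P : Ideal (𝓞 K), absNorm P = q) ∧
    4 * q ^ (2 * p) < (discr K).natAbs}.ncard

theorem card_eq (K : Type) [Field K] [NumberField K] (p : ℕ) (hp : p.Prime) :
    Nat.card (ClMod K p) = p ^ pRank K p := by
  have : Fact p.Prime := ⟨hp⟩
  let _ : Module (ZMod p) (Additive (ClMod K p)) := AddCommGroup.zmodModule (nsmul_eq_zero K p)
  have : Finite (Additive (ClMod K p)) := inferInstanceAs (Finite (ClMod K p))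
  exact (FiniteField.pow_finrank_eq_natCard p (Additive (ClMod K p))).symm

/-- **A pointwise upper bound for the odd `p`-ranks of imaginary quadratic class groups.** -/
theorem result : ∃ C : ℝ, 0 < C ∧
    ∀ (K : Type) [Field K] [NumberField K], finrank ℚ K = 2 → discr K < 0 →
      ∀ p : ℕ, p.Prime → p ≠ 2 →
        (p : ℝ) ^ pRank K p * ((numSmall K p : ℝ) + 1) ≤
          C * (p : ℝ) ^ 2 * Real.log ((numSmall K p : ℝ) + 2) ^ 2 *
            (√|(discr K : ℝ)| / Real.log |(discr K : ℝ)|) ∧
        (pRank K p : ℝ) ≤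
          2 + (Real.log √|(discr K : ℝ)| - Real.log (Real.log |(discr K : ℝ)|) + C) / Real.log p := by
  obtain ⟨C₁, h₁, H₁⟩ := Pool.Agent.Lib.MP_be8344_nt.quotient_bd
  obtain ⟨C₂, h₂, H₂⟩ := Pool.Agent.Lib.MP_be8344_nt.quotient_bd'
  refine ⟨C₁ + C₂, by positivity, fun K _ _ hK hneg p hp hp2 => ?_⟩
  have hd : (2 : ℝ) < |(discr K : ℝ)| := by
    have h4 : ((2 : ℤ) : ℝ) < ((|discr K| : ℤ) : ℝ) := by
      exact_mod_cast abs_discr_gt_two (K := K) (by omega)
    rw [Int.cast_abs] at h4
    exact_mod_cast h4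
  have hS : 0 < √|(discr K : ℝ)| := Real.sqrt_pos.2 (by linarith)
  have hL : 0 < Real.log |(discr K : ℝ)| := Real.log_pos (by linarith)
  have hcard : (Nat.card (ClassGroup (𝓞 K) ⧸ (powMonoidHom p : ClassGroup (𝓞 K) →*
      ClassGroup (𝓞 K)).range) : ℝ) = (p : ℝ) ^ pRank K p := by
    rw [← Nat.cast_pow]
    exact congrArg Nat.cast (card_eq K p hp)
  have h1 := H₁ K hK hneg p (hp.odd_of_ne_two hp2)
  have h3 := H₂ K hK hneg p (hp.odd_of_ne_two hp2)
  rw [hcard] at h1 h3
  have hp0 : (0 : ℝ) < p := by exact_mod_cast hp.pos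
  have hlp : 0 < Real.log p := Real.log_pos (by exact_mod_cast hp.one_lt)
  refine ⟨?_, ?_⟩
  · refine h1.trans ?_
    apply mul_le_mul_of_nonneg_right _ (div_pos hS hL).le
    apply mul_le_mul_of_nonneg_right _ (sq_nonneg _)
    apply mul_le_mul_of_nonneg_right _ (sq_nonneg _)
    linarith
  · have h4 := Real.log_le_log (by positivity) h3
    rw [Real.log_pow, Real.log_mul (by positivity) (div_pos hS hL).ne',
      Real.log_mul h₂.ne' (by positivity), Real.log_pow, Real.log_div hS.ne' hL.ne'] at h4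
    have h5 : Real.log C₂ ≤ C₁ + C₂ := by
      have := Real.log_le_sub_one_of_pos h₂
      linarith
    push_cast at h4
    rw [← sub_le_iff_le_add', le_div_iff₀ hlp]
    linarith

end Pool.Agent.Results.MP_be8344_nt.UniformUpperBound
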